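import Pool.Agent.Lib_helper94.GulkoDefs
import Pool.Agent.Lib_helper94.GulkoG

set_option autoImplicit false

universe u v

namespace Pool.Agent.Results.MP_aa78bc_gt.DenseMetrizable

open Pool.Agent.Lib_helper94.Gulko

/-- Every compact Hausdorff space splittable over the class of Gul'ko compact spaces has a dense
metrizable subspace (in ZFC). -/
theorem result (X : Type u) [TopologicalSpace X] [CompactSpace X] [T2Space X]
    (h : SplittableOverGulko.{u, v} X) :
    ∃ D : Set X, Dense D ∧ TopologicalSpace.MetrizableSpace D :=
  main h

end Pool.Agent.Results.MP_aa78bc_gt.DenseMetrizable
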